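import Mathlib
import Pool.Agent.H145R3.CV1

set_option autoImplicit false

/-!
# Convex-cyclic vectors of `10 i + S`, `S` a contraction of a complex normed space
-/

open Filter Topology Polynomial ContinuousLinearMap

namespace Pool.Agent.Y509.CCyc

open Pool.Agent.H145R3.CV (AA AA_nonneg growth Maj ee gg PP ee_maj gg_eq xx xx_pos xx_le xx_succ xx_step
  xx_tendsto PP_nonneg PP_le iter_small)

variable {H : Type*} [NormedAddCommGroup H] [NormedSpace ℂ H]

/-- The operator. -/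
noncomputable def TT (S : H →L[ℂ] H) : H →L[ℂ] H := (10 * Complex.I) • (1 : H →L[ℂ] H) + S

variable {S : H →L[ℂ] H}

lemma smul_one_norm (c : ℂ) : ‖c • (1 : H →L[ℂ] H)‖ ≤ ‖c‖ := by
  rw [norm_smul]; exact mul_le_of_le_one_right (norm_nonneg _) norm_id_le

lemma TT_norm (hS : ‖S‖ ≤ 1) : ‖TT S‖ ≤ 11 := by
  unfold TT
  refine (norm_add_le _ _).trans ?_
  have h1 := smul_one_norm (H := H) (10 * Complex.I)
  have h2 := hS
  have h3 : ‖(10 * Complex.I : ℂ)‖ = 10 := by simp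
  linarith

lemma sq_norm (hS : ‖S‖ ≤ 1) : ‖TT S ^ 2 + (100 : ℂ) • (1 : H →L[ℂ] H)‖ ≤ 21 := by
  have e : TT S ^ 2 + (100 : ℂ) • (1 : H →L[ℂ] H) = S * ((20 * Complex.I) • (1 : H →L[ℂ] H) + S) := by
    unfold TT
    rw [pow_two]
    simp only [add_mul, mul_add, smul_mul_assoc, mul_smul_comm, one_mul, mul_one, smul_add]
    rw [smul_smul]
    have : (10 * Complex.I * (10 * Complex.I) : ℂ) = -100 := by ring_nf; rw [Complex.I_sq]; ring
    rw [this]
    have h20 : (20 * Complex.I : ℂ) = 10 * Complex.I + 10 * Complex.I := by ring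
    rw [h20, add_smul, neg_smul]
    abel
  rw [e]
  refine (norm_mul_le _ _).trans ?_
  have h1 := smul_one_norm (H := H) (20 * Complex.I)
  have h2 := hS
  have h3 : ‖(20 * Complex.I : ℂ)‖ = 20 := by simp
  have h4 : ‖(20 * Complex.I) • (1 : H →L[ℂ] H) + S‖ ≤ 21 := (norm_add_le _ _).trans (by linarith)
  nlinarith [norm_nonneg S, norm_nonneg ((20 * Complex.I) • (1 : H →L[ℂ] H) + S)]

lemma ee_norm [Nontrivial H] (hS : ‖S‖ ≤ 1) (k : ℕ) : ‖1 - aeval (TT S) (ee k)‖ ≤ xx k ∧ ‖aeval (TT S) (gg k)‖ ≤ xx k := by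
  have hSn := hS
  have hTn := TT_norm hS
  induction k with
  | zero =>
    constructor
    · have e : 1 - aeval (TT S) (ee 0) = (1 / 200 : ℂ) • (S * ((30 * Complex.I) • (1 : H →L[ℂ] H) + S)) := by
        simp only [ee, map_mul, map_add, map_pow, aeval_C, aeval_X, Algebra.algebraMap_eq_smul_one, pow_one, smul_mul_assoc, one_mul]
        unfold TT
        rw [pow_two]
        simp only [add_mul, mul_add, smul_mul_assoc, mul_smul_comm, one_mul, mul_one, smul_add, smul_smul]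
        have h1 : (1 : H →L[ℂ] H) = (1 : ℂ) • (1 : H →L[ℂ] H) := by rw [one_smul]
        have h2 : S = (1 : ℂ) • S := by rw [one_smul]
        have h3 : (10 * Complex.I * (10 * Complex.I) : ℂ) = -100 := by ring_nf; rw [Complex.I_sq]; ring
        match_scalars
        · ring_nf; rw [Complex.I_sq]; ring
        · ring
        · ring
      rw [e, norm_smul]
      have h1 := smul_one_norm (H := H) (30 * Complex.I)
      have h3 : ‖(30 * Complex.I : ℂ)‖ = 30 := by simp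
      have h4 : ‖(30 * Complex.I) • (1 : H →L[ℂ] H) + S‖ ≤ 31 := (norm_add_le _ _).trans (by linarith)
      have h5 : ‖S * ((30 * Complex.I) • (1 : H →L[ℂ] H) + S)‖ ≤ 31 := by
        refine (norm_mul_le _ _).trans ?_
        nlinarith [norm_nonneg S, norm_nonneg ((30 * Complex.I) • (1 : H →L[ℂ] H) + S)]
      have h6 : ‖(1 / 200 : ℂ)‖ = 1 / 200 := by norm_num
      rw [h6]
      unfold xx
      linarith
    · have e : aeval (TT S) (gg 0) = (-1 / 200 : ℂ) • (TT S * S) := by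
        simp only [gg, map_mul, map_add, map_pow, aeval_C, aeval_X, Algebra.algebraMap_eq_smul_one, pow_one, smul_mul_assoc, one_mul]
        unfold TT
        rw [pow_two]
        simp only [add_mul, mul_add, smul_mul_assoc, mul_smul_comm, one_mul, mul_one, smul_add, smul_smul]
        match_scalars
        · ring
        · ring
        · ring
      rw [e, norm_smul]
      have h5 : ‖TT S * S‖ ≤ 11 := by
        refine (norm_mul_le _ _).trans ?_
        nlinarith [norm_nonneg S, norm_nonneg (TT S)]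
      have h6 : ‖(-1 / 200 : ℂ)‖ = 1 / 200 := by norm_num
      rw [h6]
      unfold xx
      linarith
  | succ k ih =>
    constructor
    · have h := iter_small k _ ih.1
      have e : 1 - aeval (TT S) (ee (k + 1)) = 3 * (1 - aeval (TT S) (ee k)) ^ 2 - 2 * (1 - aeval (TT S) (ee k)) ^ 3 := by
        simp only [ee, map_mul, map_add, map_pow, aeval_C]
        have h3 : (algebraMap ℂ (H →L[ℂ] H)) 3 = 3 := map_ofNat _ 3
        have h2 : (algebraMap ℂ (H →L[ℂ] H)) (-2) = -2 := by rw [map_neg, map_ofNat]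
        rw [h3, h2]
        generalize (aeval (TT S)) (ee k) = E
        noncomm_ring
      rw [e]
      exact h
    · have h := iter_small k _ ih.2
      have e : aeval (TT S) (gg (k + 1)) = 3 * (aeval (TT S) (gg k)) ^ 2 - 2 * (aeval (TT S) (gg k)) ^ 3 := by
        simp only [gg, map_mul, map_add, map_pow, aeval_C]
        have h3 : (algebraMap ℂ (H →L[ℂ] H)) 3 = 3 := map_ofNat _ 3
        have h2 : (algebraMap ℂ (H →L[ℂ] H)) (-2) = -2 := by rw [map_neg, map_ofNat]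
        rw [h3, h2]
        noncomm_ring
      rw [e]
      exact h

lemma AA_link (T : H →L[ℂ] H) (φ : H →L[ℂ] ℂ) (m : ℕ) : ∀ (M : ℝ) (z : H) (n : ℕ),
    (AA^[m] (fun n => M - (φ ((T ^ n) z)).re)) n =
      M * 101 ^ m - (φ ((T ^ n) (((T ^ 2 + (100 : ℂ) • (1 : H →L[ℂ] H)) ^ m) z))).re := by
  induction m with
  | zero => intro M z n; simp
  | succ m ih =>
    intro M z n
    rw [Function.iterate_succ_apply]
    have e : AA (fun n => M - (φ ((T ^ n) z)).re) =
        fun n => (101 * M) - (φ ((T ^ n) ((T ^ 2 + (100 : ℂ) • (1 : H →L[ℂ] H)) z))).re := by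
      funext n
      simp only [AA]
      have e1 : (T ^ n) ((T ^ 2 + (100 : ℂ) • (1 : H →L[ℂ] H)) z) = (T ^ (n + 2)) z + (100 : ℂ) • (T ^ n) z := by
        rw [add_apply, map_add, smul_apply, map_smul, ← mul_apply_eq_comp, ← pow_add, one_apply_eq_self]
      rw [e1, map_add, map_smul]
      simp only [Complex.add_re, smul_eq_mul, Complex.mul_re, Complex.re_ofNat, Complex.im_ofNat, zero_mul, sub_zero]
      ring
    rw [e, ih]
    rw [← mul_apply_eq_comp, ← mul_apply_eq_comp, ← mul_apply_eq_comp]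
    rw [mul_assoc (T ^ n), ← pow_succ, pow_succ (101 : ℝ)]
    rw [mul_apply_eq_comp]
    ring

lemma a_growth (hS : ‖S‖ ≤ 1) (φ : H →L[ℂ] ℂ) (z : H) (M : ℝ)
    (h : ∀ n : ℕ, (φ ((TT S ^ n) z)).re ≤ M) :
    ∃ C : ℝ, 0 ≤ C ∧ ∀ n : ℕ, |(φ ((TT S ^ n) z)).re| ≤ C * (7 / 4) ^ n := by
  set M' : ℝ := max M 0 with hM'
  have hM0 : 0 ≤ M' := le_max_right _ _
  have h' : ∀ n : ℕ, (φ ((TT S ^ n) z)).re ≤ M' := fun n => (h n).trans (le_max_left _ _)
  set D : ℝ := M' + ‖φ‖ * (11 * ‖z‖) with hD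
  have hD0 : 0 ≤ D := by positivity
  have hTpow : ∀ n, ‖TT S ^ n‖ ≤ 11 ^ n := by
    intro n
    rcases Nat.eq_zero_or_pos n with h0 | h0
    · subst h0; rw [pow_zero, pow_zero]; exact norm_id_le
    · exact (norm_pow_le' _ h0).trans (pow_le_pow_left₀ (norm_nonneg _) (TT_norm hS) n)
  have hQpow : ∀ m, ‖(TT S ^ 2 + (100 : ℂ) • (1 : H →L[ℂ] H)) ^ m‖ ≤ 101 ^ m := by
    intro n
    rcases Nat.eq_zero_or_pos n with h0 | h0
    · subst h0; rw [pow_zero, pow_zero]; exact norm_id_le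
    · refine (norm_pow_le' _ h0).trans (pow_le_pow_left₀ (norm_nonneg _) ((sq_norm hS).trans (by norm_num)) n)
  have hb : ∀ n ≤ 1, ∀ m, (AA^[m] (fun n => M' - (φ ((TT S ^ n) z)).re)) n ≤ D * 101 ^ m := by
    intro n hn m
    rw [AA_link]
    have h1 : |(φ ((TT S ^ n) (((TT S ^ 2 + (100 : ℂ) • (1 : H →L[ℂ] H)) ^ m) z))).re| ≤ ‖φ‖ * (11 * ‖z‖) * 101 ^ m := by
      refine (Complex.abs_re_le_norm _).trans ?_
      refine (φ.le_opNorm _).trans ?_
      rw [mul_assoc]
      refine mul_le_mul_of_nonneg_left ?_ (norm_nonneg _)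
      refine ((TT S ^ n).le_opNorm _).trans ?_
      have h2 : (11 : ℝ) ^ n ≤ 11 := by
        calc (11 : ℝ) ^ n ≤ 11 ^ 1 := pow_le_pow_right₀ (by norm_num) hn
          _ = 11 := pow_one _
      have h3 : ‖((TT S ^ 2 + (100 : ℂ) • (1 : H →L[ℂ] H)) ^ m) z‖ ≤ 101 ^ m * ‖z‖ :=
        (le_opNorm _ _).trans (mul_le_mul_of_nonneg_right (hQpow m) (norm_nonneg _))
      calc ‖TT S ^ n‖ * ‖((TT S ^ 2 + (100 : ℂ) • (1 : H →L[ℂ] H)) ^ m) z‖ ≤ 11 * (101 ^ m * ‖z‖) :=
            mul_le_mul ((hTpow n).trans h2) h3 (norm_nonneg _) (by norm_num)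
        _ = _ := by ring
    have h2 := (abs_le.1 h1).1
    rw [hD, add_mul]
    linarith
  have hnn : ∀ n, 0 ≤ (fun n => M' - (φ ((TT S ^ n) z)).re) n := by
    intro n
    have := h' n
    simp only
    linarith
  have hg : ∀ n, M' - (φ ((TT S ^ n) z)).re ≤ D * (7 / 4) ^ n := by
    intro n
    have h3 : ∀ j : ℕ, (3 : ℝ) ^ j ≤ (7 / 4) ^ (2 * j) := by
      intro j
      rw [pow_mul]
      exact pow_le_pow_left₀ (by norm_num) (by norm_num) j
    rcases Nat.even_or_odd' n with ⟨j, hj | hj⟩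
    · have := growth _ hnn D 0 (hb 0 (by norm_num)) j
      rw [zero_add] at this
      rw [hj]
      exact this.trans (mul_le_mul_of_nonneg_left (h3 j) hD0)
    · have := growth _ hnn D 1 (hb 1 le_rfl) j
      rw [hj, show 2 * j + 1 = 1 + 2 * j by ring]
      refine this.trans (mul_le_mul_of_nonneg_left ?_ hD0)
      rw [pow_add, pow_one]
      have h5 : (0 : ℝ) < (7 / 4) ^ (2 * j) := by positivity
      linarith [h3 j]
  refine ⟨M' + D, by positivity, fun n => ?_⟩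
  have h1 : (1 : ℝ) ≤ (7 / 4) ^ n := one_le_pow₀ (by norm_num)
  rw [abs_le]
  constructor
  · have := hg n
    have h2 : 0 ≤ M' * (7 / 4) ^ n := by positivity
    rw [add_mul]
    linarith
  · have := h' n
    have h2 : M' ≤ M' * (7 / 4) ^ n := le_mul_of_one_le_right hM0 h1
    have h3 : 0 ≤ D * (7 / 4) ^ n := by positivity
    rw [add_mul]
    linarith

lemma poly_bound (T : H →L[ℂ] H) (φ : H →L[ℂ] ℂ) (z : H) (C : ℝ) (hC : 0 ≤ C)
    (h : ∀ n : ℕ, |(φ ((T ^ n) z)).re| ≤ C * (7 / 4) ^ n) (q : ℂ[X]) (P : ℝ[X]) (hq : Maj q P) :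
    ‖φ (aeval T q z) + (starRingEnd ℂ) (φ (aeval T (q.map (starRingEnd ℂ)) z))‖ ≤ 2 * C * P.eval (7 / 4) := by
  set N : ℕ := max q.natDegree P.natDegree + 1 with hN
  have e1 : φ (aeval T q z) = ∑ i ∈ Finset.range N, q.coeff i * φ ((T ^ i) z) := by
    rw [aeval_eq_sum_range' (n := N) (by omega), sum_apply, map_sum]
    simp
  have e2 : (starRingEnd ℂ) (φ (aeval T (q.map (starRingEnd ℂ)) z)) =
      ∑ i ∈ Finset.range N, q.coeff i * (starRingEnd ℂ) (φ ((T ^ i) z)) := by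
    rw [aeval_eq_sum_range' (n := N) (by have := natDegree_map_le (f := starRingEnd ℂ) (p := q); omega), sum_apply, map_sum, map_sum]
    refine Finset.sum_congr rfl (fun i _ => ?_)
    simp
  have e3 : P.eval (7 / 4) = ∑ i ∈ Finset.range N, P.coeff i * (7 / 4) ^ i :=
    eval_eq_sum_range' (by omega) _
  rw [e1, e2, e3, ← Finset.sum_add_distrib, Finset.mul_sum]
  refine (norm_sum_le _ _).trans (Finset.sum_le_sum (fun i _ => ?_))
  rw [← mul_add, Complex.add_conj, norm_mul, Complex.norm_real, Real.norm_eq_abs, abs_mul]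
  have h2 : |(2 : ℝ)| = 2 := by norm_num
  rw [h2]
  have h3 := hq i
  have h4 := h i
  have h5 : 0 ≤ P.coeff i := (norm_nonneg _).trans h3
  calc ‖q.coeff i‖ * (2 * |(φ ((T ^ i) z)).re|) ≤ P.coeff i * (2 * (C * (7 / 4) ^ i)) :=
        mul_le_mul h3 (by linarith) (by positivity) h5
    _ = _ := by ring

lemma key [Nontrivial H] (hS : ‖S‖ ≤ 1) (φ : H →L[ℂ] ℂ) (z : H) (M : ℝ)
    (h : ∀ n : ℕ, (φ ((TT S ^ n) z)).re ≤ M) (j : ℕ) : φ ((TT S ^ j) z) = 0 := by
  obtain ⟨C, hC0, hC⟩ := a_growth hS φ z M h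
  have hTpow : ∀ n, ‖TT S ^ n‖ ≤ 11 ^ n := by
    intro n
    rcases Nat.eq_zero_or_pos n with h0 | h0
    · subst h0; rw [pow_zero, pow_zero]; exact norm_id_le
    · exact (norm_pow_le' _ h0).trans (pow_le_pow_left₀ (norm_nonneg _) (TT_norm hS) n)
  have hbd : ∀ k, ‖φ ((TT S ^ j) z)‖ ≤ (2 * (‖φ‖ * (11 ^ j * ‖z‖)) + 2 * C * (7 / 4) ^ j) * xx k := by
    intro k
    have hx0 := (xx_pos k).le
    have h1 := poly_bound (TT S) φ z C hC0 hC (X ^ j * ee k) (X ^ j * PP k) (Pool.Agent.H145R3.CV.Maj.mul (Pool.Agent.H145R3.CV.Maj.Xpow j) (ee_maj k))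
    have hgen : ∀ A : H →L[ℂ] H, ‖A‖ ≤ xx k → ‖φ ((TT S ^ j) (A z))‖ ≤ (‖φ‖ * (11 ^ j * ‖z‖)) * xx k := by
      intro A hA
      refine (φ.le_opNorm _).trans ?_
      rw [mul_assoc]
      refine mul_le_mul_of_nonneg_left ?_ (norm_nonneg _)
      refine ((TT S ^ j).le_opNorm _).trans ?_
      have h3 : ‖A z‖ ≤ xx k * ‖z‖ := (A.le_opNorm z).trans (mul_le_mul_of_nonneg_right hA (norm_nonneg _))
      calc ‖TT S ^ j‖ * ‖A z‖ ≤ 11 ^ j * (xx k * ‖z‖) := mul_le_mul (hTpow j) h3 (norm_nonneg _) (by positivity)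
        _ = _ := by ring
    obtain ⟨hE, hG⟩ := ee_norm hS k
    have h2 := hgen _ hE
    have h3 := hgen _ hG
    have e1 : aeval (TT S) (X ^ j * ee k) z = (TT S ^ j) (aeval (TT S) (ee k) z) := by
      rw [map_mul, map_pow, aeval_X, mul_apply_eq_comp]
    have e2 : aeval (TT S) ((X ^ j * ee k).map (starRingEnd ℂ)) z = (TT S ^ j) (aeval (TT S) (gg k) z) := by
      rw [Polynomial.map_mul, Polynomial.map_pow, map_X, ← gg_eq, map_mul, map_pow, aeval_X, mul_apply_eq_comp]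
    rw [e1, e2] at h1
    have e3 : (X ^ j * PP k).eval (7 / 4 : ℝ) ≤ (7 / 4) ^ j * xx k := by
      rw [eval_mul, eval_pow, eval_X]
      exact mul_le_mul_of_nonneg_left (PP_le k) (by positivity)
    have e4 : φ ((TT S ^ j) z) = φ ((TT S ^ j) ((1 - aeval (TT S) (ee k)) z)) +
        ((φ ((TT S ^ j) (aeval (TT S) (ee k) z)) + (starRingEnd ℂ) (φ ((TT S ^ j) (aeval (TT S) (gg k) z)))) -
          (starRingEnd ℂ) (φ ((TT S ^ j) (aeval (TT S) (gg k) z)))) := by
      rw [sub_apply, one_apply_eq_self, map_sub, map_sub]; ring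
    rw [e4]
    have h4 : ‖(starRingEnd ℂ) (φ ((TT S ^ j) (aeval (TT S) (gg k) z)))‖ ≤ (‖φ‖ * (11 ^ j * ‖z‖)) * xx k := by
      rw [RCLike.norm_conj]; exact h3
    have h5 : ‖φ ((TT S ^ j) (aeval (TT S) (ee k) z)) + (starRingEnd ℂ) (φ ((TT S ^ j) (aeval (TT S) (gg k) z)))‖ ≤
        2 * C * ((7 / 4) ^ j * xx k) := h1.trans (mul_le_mul_of_nonneg_left e3 (by positivity))
    refine (norm_add_le _ _).trans ?_
    refine (add_le_add h2 ((norm_sub_le _ _).trans (add_le_add h5 h4))).trans (le_of_eq ?_)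
    ring
  have ht : Tendsto (fun k => (2 * (‖φ‖ * (11 ^ j * ‖z‖)) + 2 * C * (7 / 4) ^ j) * xx k) atTop (𝓝 0) := by
    have := xx_tendsto.const_mul (2 * (‖φ‖ * (11 ^ j * ‖z‖)) + 2 * C * (7 / 4) ^ j)
    rw [mul_zero] at this
    exact this
  have h0 : ‖φ ((TT S ^ j) z)‖ ≤ 0 := ge_of_tendsto' ht hbd
  exact norm_le_zero_iff.1 h0


/-- cyclic vectors of `S` -/
def Cyc (S : H →L[ℂ] H) (x : H) : Prop :=
  Dense (Submodule.span ℂ (Set.range fun n : ℕ => (S ^ n) x) : Set H)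

/-- convex-cyclic vectors -/
def CC (T : H →L[ℂ] H) (x : H) : Prop :=
  Dense (convexHull ℝ (Set.range fun n : ℕ => (T ^ n) x))

lemma phi_zero (x : H) (hx : Cyc S x) (φ : H →L[ℂ] ℂ) (h : ∀ j : ℕ, φ ((TT S ^ j) x) = 0) :
    φ = 0 := by
  have h1 : ∀ q : ℂ[X], φ (aeval (TT S) q x) = 0 := by
    intro q
    rw [aeval_eq_sum_range, sum_apply, map_sum]
    refine Finset.sum_eq_zero (fun i _ => ?_)
    rw [smul_apply, map_smul, h, smul_zero]
  have h2 : ∀ j, φ ((S ^ j) x) = 0 := by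
    intro j
    have := h1 ((X - C (10 * Complex.I)) ^ j)
    have e : aeval (TT S) ((X - C (10 * Complex.I)) ^ j) = S ^ j := by
      rw [map_pow, map_sub, aeval_X, aeval_C, Algebra.algebraMap_eq_smul_one]
      congr 1
      unfold TT
      abel
    rw [e] at this
    exact this
  apply ContinuousLinearMap.ext_on hx
  rintro _ ⟨j, rfl⟩
  simp only [h2]
  rfl

theorem cc_of_cyc (hS : ‖S‖ ≤ 1) (x : H) (hx : Cyc S x) : CC (TT S) x := by
  rcases subsingleton_or_nontrivial H with hH | hH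
  · intro y
    rw [Subsingleton.elim y x]
    exact subset_closure (subset_convexHull ℝ _ ⟨0, by simp⟩)
  by_contra hcon
  unfold CC at hcon
  rw [dense_iff_closure_eq, ← ne_eq, Set.ne_univ_iff_exists_notMem] at hcon
  obtain ⟨y, hy⟩ := hcon
  obtain ⟨φ, u, h1, h2⟩ := RCLike.geometric_hahn_banach_closed_point (𝕜 := ℂ)
    (convex_convexHull ℝ (Set.range (fun n : ℕ => (TT S ^ n) x))).closure isClosed_closure hy
  have h3 : ∀ n : ℕ, (φ ((TT S ^ n) x)).re ≤ u := by
    intro n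
    exact (h1 _ (subset_closure (subset_convexHull ℝ _ ⟨n, rfl⟩))).le
  have h4 := phi_zero x hx φ (key hS φ x u h3)
  have h5 := h1 _ (subset_closure (subset_convexHull ℝ _ ⟨0, rfl⟩))
  rw [h4] at h2 h5
  simp at h2 h5
  linarith

theorem cyc_of_cc (x : H) (hx : CC (TT S) x) : Cyc S x := by
  refine Dense.mono ?_ hx
  have h1 : ∀ n : ℕ, ∀ y ∈ Submodule.span ℂ (Set.range fun n : ℕ => (S ^ n) x),
      (TT S ^ n) y ∈ Submodule.span ℂ (Set.range fun n : ℕ => (S ^ n) x) := by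
    have h0 : ∀ y ∈ Submodule.span ℂ (Set.range fun n : ℕ => (S ^ n) x),
        S y ∈ Submodule.span ℂ (Set.range fun n : ℕ => (S ^ n) x) := by
      intro y hy
      refine Submodule.span_induction ?_ ?_ ?_ ?_ hy
      · rintro _ ⟨n, rfl⟩
        refine Submodule.subset_span ⟨n + 1, ?_⟩
        simp only [pow_succ', mul_apply_eq_comp]
      · rw [map_zero]; exact Submodule.zero_mem _
      · intro a b _ _ ha hb
        rw [map_add]; exact Submodule.add_mem _ ha hb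
      · intro c a _ ha
        rw [map_smul]; exact Submodule.smul_mem _ _ ha
    intro n
    induction n with
    | zero => intro y hy; simpa using hy
    | succ n ih =>
      intro y hy
      rw [pow_succ, mul_apply_eq_comp]
      apply ih
      unfold TT
      rw [add_apply, smul_apply, one_apply_eq_self]
      exact Submodule.add_mem _ (Submodule.smul_mem _ _ hy) (h0 y hy)
  have h2 : Convex ℝ (Submodule.span ℂ (Set.range fun n : ℕ => (S ^ n) x) : Set H) :=
    ((Submodule.span ℂ (Set.range fun n : ℕ => (S ^ n) x)).restrictScalars ℝ).convex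
  refine convexHull_min ?_ h2
  rintro _ ⟨n, rfl⟩
  exact h1 n x (Submodule.subset_span ⟨0, by simp⟩)

theorem cc_iff (hS : ‖S‖ ≤ 1) (x : H) : CC (TT S) x ↔ Cyc S x :=
  ⟨cyc_of_cc x, cc_of_cyc hS x⟩

end Pool.Agent.Y509.CCyc
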