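import Mathlib
import Pool.Agent.Y509.CCyc.Norm

set_option autoImplicit false

/-!
# Cyclic vectors of left invertible, not surjective operators are not dense
-/

open Filter Topology ContinuousLinearMap

namespace Pool.Agent.Y509.CCyc

variable {X : Type*} [NormedAddCommGroup X] [NormedSpace ℂ X]

lemma kernel_exists (L : X →L[ℂ] X) (δ : X →L[ℂ] ℂ) (ζ : ℂ) (h : ‖ζ‖ * ‖L‖ ≤ 1 / 2) :
    ∃ Λ : X →L[ℂ] ℂ, Λ = δ + ζ • (Λ ∘L L) := by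
  let A : (X →L[ℂ] ℂ) →L[ℂ] (X →L[ℂ] ℂ) := ζ • ((compL ℂ X X ℂ).flip L)
  have hA : ‖A‖ < 1 := by
    have h1 : ‖A‖ ≤ ‖ζ‖ * ‖L‖ := by
      refine opNorm_le_bound _ (by positivity) (fun Φ => ?_)
      change ‖ζ • (Φ ∘L L)‖ ≤ _
      rw [norm_smul]
      have := opNorm_comp_le Φ L
      calc ‖ζ‖ * ‖Φ ∘L L‖ ≤ ‖ζ‖ * (‖Φ‖ * ‖L‖) := mul_le_mul_of_nonneg_left this (norm_nonneg _)
        _ = ‖ζ‖ * ‖L‖ * ‖Φ‖ := by ring
    linarith
  refine ⟨(∑' n : ℕ, A ^ n) δ, ?_⟩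
  have h2 := mul_neg_geom_series A hA
  have h1 := congrArg (fun B : (X →L[ℂ] ℂ) →L[ℂ] (X →L[ℂ] ℂ) => B δ) h2
  simp only [mul_apply_eq_comp, sub_apply, one_apply_eq_self] at h1
  rw [sub_eq_iff_eq_add] at h1
  exact h1

/-- If `S` has a left inverse and is not surjective, then the cyclic vectors of `S` are not
dense. -/
theorem not_dense_cyc (S L : X →L[ℂ] X) (hLS : ∀ x, L (S x) = x) (hs : ¬ Function.Surjective S) :
    ¬ Dense {x | Cyc S x} := by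
  -- a vector killed by `L`
  obtain ⟨y, hy⟩ : ∃ y, ∀ x, S x ≠ y := by
    by_contra hcon
    push Not at hcon
    exact hs hcon
  set e : X := y - S (L y) with he
  have he0 : e ≠ 0 := fun h => hy (L y) (sub_eq_zero.1 (he ▸ h)).symm
  have hLe : L e = 0 := by rw [he, map_sub, hLS, sub_self]
  obtain ⟨δ0, hδ0⟩ := exists_dual_vector ℂ e (norm_ne_zero_iff.2 he0)
  have hne : (‖e‖ : ℂ) ≠ 0 := by
    exact_mod_cast (norm_ne_zero_iff.2 he0)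
  let δ : X →L[ℂ] ℂ := (‖e‖ : ℂ)⁻¹ • (δ0 ∘L (1 - S ∘L L))
  have hδS : ∀ x, δ (S x) = 0 := by
    intro x
    change (‖e‖ : ℂ)⁻¹ • (δ0 (S x - S (L (S x)))) = 0
    rw [hLS, sub_self, map_zero, smul_zero]
  have hδe : δ e = 1 := by
    change (‖e‖ : ℂ)⁻¹ • (δ0 (e - S (L e))) = 1
    rw [hLe, map_zero, sub_zero, hδ0.2, smul_eq_mul]
    exact inv_mul_cancel₀ hne
  set r : ℝ := 1 / (2 * (‖L‖ + 1)) with hr
  have hr0 : 0 < r := by positivity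
  have hrL : r * ‖L‖ ≤ 1 / 2 := by
    rw [hr, div_mul_eq_mul_div, div_le_div_iff₀ (by positivity) (by norm_num)]
    nlinarith [norm_nonneg L]
  have hk : ∀ ζ : ℂ, ∃ Λ : X →L[ℂ] ℂ, ‖ζ‖ ≤ r → Λ = δ + ζ • (Λ ∘L L) := by
    intro ζ
    by_cases h : ‖ζ‖ ≤ r
    · obtain ⟨Λ, hΛ⟩ := kernel_exists L δ ζ
        ((mul_le_mul_of_nonneg_right h (norm_nonneg _)).trans hrL)
      exact ⟨Λ, fun _ => hΛ⟩
    · exact ⟨0, fun h' => absurd h' h⟩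
  choose Λ hΛ using hk
  have hcomp : ∀ (ζ : ℂ) (Φ : X →L[ℂ] ℂ), ‖ζ‖ ≤ r → ‖ζ • (Φ ∘L L)‖ ≤ 1 / 2 * ‖Φ‖ := by
    intro ζ Φ h
    rw [norm_smul]
    calc ‖ζ‖ * ‖Φ ∘L L‖ ≤ ‖ζ‖ * (‖Φ‖ * ‖L‖) :=
          mul_le_mul_of_nonneg_left (opNorm_comp_le Φ L) (norm_nonneg _)
      _ = (‖ζ‖ * ‖L‖) * ‖Φ‖ := by ring
      _ ≤ 1 / 2 * ‖Φ‖ := mul_le_mul_of_nonneg_right
          ((mul_le_mul_of_nonneg_right h (norm_nonneg _)).trans hrL) (norm_nonneg _)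
  have hnorm : ∀ ζ : ℂ, ‖ζ‖ ≤ r → ‖Λ ζ‖ ≤ 2 * ‖δ‖ := by
    intro ζ h
    have h1 : ‖δ + ζ • (Λ ζ ∘L L)‖ ≤ ‖δ‖ + 1 / 2 * ‖Λ ζ‖ :=
      (norm_add_le _ _).trans (add_le_add le_rfl (hcomp ζ _ h))
    rw [← hΛ ζ h] at h1
    linarith
  have hlip : ∀ ζ η : ℂ, ‖ζ‖ ≤ r → ‖η‖ ≤ r → ‖Λ ζ - Λ η‖ ≤ 4 * ‖L‖ * ‖δ‖ * ‖ζ - η‖ := by
    intro ζ η h h'
    have e1 : Λ ζ - Λ η = ζ • ((Λ ζ - Λ η) ∘L L) + (ζ - η) • (Λ η ∘L L) := by
      ext x
      have h1 : Λ ζ x = δ x + ζ * Λ ζ (L x) := by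
        have := congrArg (fun Φ : X →L[ℂ] ℂ => Φ x) (hΛ ζ h)
        simpa using this
      have h2 : Λ η x = δ x + η * Λ η (L x) := by
        have := congrArg (fun Φ : X →L[ℂ] ℂ => Φ x) (hΛ η h')
        simpa using this
      simp only [sub_apply, add_apply, smul_apply, comp_apply, smul_eq_mul]
      rw [h1, h2]
      ring
    have h1 : ‖Λ ζ - Λ η‖ ≤ 1 / 2 * ‖Λ ζ - Λ η‖ + ‖ζ - η‖ * (2 * ‖δ‖ * ‖L‖) := by
      conv_lhs => rw [e1]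
      refine (norm_add_le _ _).trans (add_le_add (hcomp ζ _ h) ?_)
      rw [norm_smul]
      refine mul_le_mul_of_nonneg_left ?_ (norm_nonneg _)
      exact (opNorm_comp_le _ _).trans (mul_le_mul_of_nonneg_right (hnorm η h') (norm_nonneg _))
    nlinarith
  have hΛS : ∀ ζ : ℂ, ‖ζ‖ ≤ r → ∀ x, Λ ζ (S x) = ζ * Λ ζ x := by
    intro ζ h x
    have h1 := congrArg (fun Φ : X →L[ℂ] ℂ => Φ (S x)) (hΛ ζ h)
    simp only [add_apply, smul_apply, comp_apply, hδS, hLS, zero_add, smul_eq_mul] at h1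
    exact h1
  have hΛe : ∀ ζ : ℂ, ‖ζ‖ ≤ r → Λ ζ e = 1 := by
    intro ζ h
    have h1 := congrArg (fun Φ : X →L[ℂ] ℂ => Φ e) (hΛ ζ h)
    simp only [add_apply, smul_apply, comp_apply, hδe, hLe, map_zero, smul_zero, add_zero] at h1
    exact h1
  set ε : ℝ := r / (4 * ‖δ‖ + 1) with hε
  have hε0 : 0 < ε := by positivity
  have hε1 : (4 * ‖δ‖ + 1) * ε = r := by
    rw [hε]; field_simp
  have hε2 : 2 * ‖δ‖ * ε ≤ r := by nlinarith [norm_nonneg δ]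
  have hε3 : 4 * ‖L‖ * ‖δ‖ * ε ≤ 1 / 2 := by
    have h1 : 4 * ‖δ‖ * ε ≤ r := by nlinarith
    calc 4 * ‖L‖ * ‖δ‖ * ε = (4 * ‖δ‖ * ε) * ‖L‖ := by ring
      _ ≤ r * ‖L‖ := mul_le_mul_of_nonneg_right h1 (norm_nonneg _)
      _ ≤ 1 / 2 := hrL
  intro hd
  obtain ⟨v, hv1, hv2⟩ := Metric.dense_iff.1 hd (S e) ε hε0
  rw [Metric.mem_ball, dist_eq_norm] at hv1
  set u := v - S e with hu
  have hu1 : ‖u‖ ≤ ε := hv1.le
  let g : ℂ → ℂ := fun ζ => -(Λ ζ u)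
  have hmaps : Set.MapsTo g (Metric.closedBall 0 r) (Metric.closedBall 0 r) := by
    intro ζ hζ
    rw [mem_closedBall_zero_iff] at hζ ⊢
    simp only [g, norm_neg]
    calc ‖Λ ζ u‖ ≤ ‖Λ ζ‖ * ‖u‖ := (Λ ζ).le_opNorm u
      _ ≤ (2 * ‖δ‖) * ε := mul_le_mul (hnorm ζ hζ) hu1 (norm_nonneg _) (by positivity)
      _ ≤ r := hε2
  have hcontr : ContractingWith (1 / 2 : NNReal) (hmaps.restrict g _ _) := by
    refine ⟨by norm_num, ?_⟩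
    apply LipschitzWith.of_dist_le_mul
    rintro ⟨ζ, hζ⟩ ⟨η, hη⟩
    rw [mem_closedBall_zero_iff] at hζ hη
    change dist (g ζ) (g η) ≤ _ * dist ζ η
    simp only [g]
    rw [dist_neg_neg, dist_eq_norm, dist_eq_norm, ← sub_apply]
    have h2 : ((1 / 2 : NNReal) : ℝ) = 1 / 2 := by norm_num
    rw [h2]
    calc ‖(Λ ζ - Λ η) u‖ ≤ ‖Λ ζ - Λ η‖ * ‖u‖ := (Λ ζ - Λ η).le_opNorm u
      _ ≤ (4 * ‖L‖ * ‖δ‖ * ‖ζ - η‖) * ε :=
          mul_le_mul (hlip ζ η hζ hη) hu1 (norm_nonneg _) (by positivity)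
      _ = (4 * ‖L‖ * ‖δ‖ * ε) * ‖ζ - η‖ := by ring
      _ ≤ 1 / 2 * ‖ζ - η‖ := mul_le_mul_of_nonneg_right hε3 (norm_nonneg _)
  obtain ⟨ζ, hζ, hfix, -, -⟩ := ContractingWith.exists_fixedPoint'
    (s := Metric.closedBall (0 : ℂ) r)
    (Metric.isClosed_closedBall.isComplete) hmaps hcontr (x := 0)
    (by rw [mem_closedBall_zero_iff, norm_zero]; exact hr0.le) (edist_ne_top _ _)
  rw [mem_closedBall_zero_iff] at hζ
  have hfix' : -(Λ ζ u) = ζ := hfix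
  have h0 : Λ ζ v = 0 := by
    have e1 : v = S e + u := by rw [hu]; abel
    rw [e1, map_add, hΛS ζ hζ, hΛe ζ hζ, mul_one]
    nth_rewrite 1 [← hfix']
    ring
  have h1 : ∀ n : ℕ, Λ ζ ((S ^ n) v) = 0 := by
    intro n
    induction n with
    | zero => simpa using h0
    | succ n ih => rw [pow_succ', mul_apply_eq_comp, hΛS ζ hζ, ih, mul_zero]
  have h2 : Λ ζ = 0 := by
    apply ContinuousLinearMap.ext_on hv2
    rintro _ ⟨n, rfl⟩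
    simp only [h1]
    rfl
  have h3 := hΛe ζ hζ
  rw [h2] at h3
  exact zero_ne_one h3

lemma cyc_smul (S : X →L[ℂ] X) (c : ℂ) (hc : c ≠ 0) (x : X) : Cyc (c • S) x ↔ Cyc S x := by
  have key : ∀ (S : X →L[ℂ] X) (c : ℂ), Submodule.span ℂ (Set.range fun n : ℕ => ((c • S) ^ n) x) ≤
      Submodule.span ℂ (Set.range fun n : ℕ => (S ^ n) x) := by
    intro S c
    refine Submodule.span_le.2 ?_
    rintro _ ⟨n, rfl⟩
    have : ((c • S) ^ n) x = c ^ n • (S ^ n) x := by rw [smul_pow, smul_apply]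
    simp only [this]
    exact Submodule.smul_mem _ _ (Submodule.subset_span ⟨n, rfl⟩)
  have heq : Submodule.span ℂ (Set.range fun n : ℕ => ((c • S) ^ n) x) =
      Submodule.span ℂ (Set.range fun n : ℕ => (S ^ n) x) := by
    refine le_antisymm (key S c) ?_
    have h1 := key (c • S) c⁻¹
    rwa [smul_smul, inv_mul_cancel₀ hc, one_smul] at h1
  unfold Cyc
  rw [heq]

/-- A space with a cyclic operator whose cyclic vectors are not dense has a convex-cyclic operator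
whose convex-cyclic vectors are not dense. -/
theorem exists_cc (S : X →L[ℂ] X) (hc : ∃ x, Cyc S x) (hd : ¬ Dense {x | Cyc S x}) :
    ∃ T : X →L[ℂ] X, (∃ x, CC T x) ∧ ¬ Dense {x | CC T x} := by
  let c : ℂ := (((‖S‖ + 1)⁻¹ : ℝ) : ℂ)
  have hpos : (0 : ℝ) < (‖S‖ + 1)⁻¹ := by positivity
  have hc0 : c ≠ 0 := by
    simp only [c, ne_eq, Complex.ofReal_eq_zero]
    exact hpos.ne'
  have hn : ‖c • S‖ ≤ 1 := by
    rw [norm_smul]
    simp only [c, Complex.norm_real, Real.norm_eq_abs, abs_of_pos hpos]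
    rw [inv_mul_le_iff₀ (by positivity)]
    linarith
  have h1 : ∀ x, CC (TT (c • S)) x ↔ Cyc S x := fun x => (cc_iff hn x).trans (cyc_smul S c hc0 x)
  refine ⟨TT (c • S), ?_, ?_⟩
  · obtain ⟨x, hx⟩ := hc
    exact ⟨x, (h1 x).2 hx⟩
  · have : {x | CC (TT (c • S)) x} = {x | Cyc S x} := by ext x; exact h1 x
    rw [this]
    exact hd

end Pool.Agent.Y509.CCyc
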