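import Mathlib
import Pool.Agent.Y509.CCyc.LeftInv

set_option autoImplicit false

/-!
# The shift on `c₀`
-/

open Filter Topology ContinuousLinearMap
open scoped ENNReal ZeroAtInfty

namespace Pool.Agent.Y509.CCyc

/-- complex `c₀` -/
abbrev czero : Type := C₀(ℕ, ℂ)

lemma cz_tendsto (x : czero) : Tendsto (fun n => x n) atTop (𝓝 0) := by
  have h := x.zero_at_infty'
  rwa [cocompact_eq_cofinite, Nat.cofinite_eq_atTop] at h

/-- an element of `c₀` from a null sequence -/
def mkz (f : ℕ → ℂ) (hf : Tendsto f atTop (𝓝 0)) : czero :=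
  ⟨⟨f, continuous_of_discreteTopology⟩, by
    change Tendsto f (cocompact ℕ) (𝓝 0)
    rwa [cocompact_eq_cofinite, Nat.cofinite_eq_atTop]⟩

lemma cz_norm_le (x : czero) (C : ℝ) (hC : 0 ≤ C) (h : ∀ n, ‖x n‖ ≤ C) : ‖x‖ ≤ C := by
  rw [← ZeroAtInftyContinuousMap.norm_toBCF_eq_norm]
  exact (BoundedContinuousFunction.norm_le hC).2 h

lemma cz_le_norm (x : czero) (n : ℕ) : ‖x n‖ ≤ ‖x‖ := by
  rw [← ZeroAtInftyContinuousMap.norm_toBCF_eq_norm]
  exact BoundedContinuousFunction.norm_coe_le_norm (x.toBCF) n

/-- right shift of a sequence -/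
def rsz (x : ℕ → ℂ) : ℕ → ℂ
  | 0 => 0
  | n + 1 => x n

/-- left shift -/
noncomputable def Lz : czero →L[ℂ] czero :=
  LinearMap.mkContinuous
    { toFun := fun x => mkz (fun n => x (n + 1)) ((tendsto_add_atTop_iff_nat 1).2 (cz_tendsto x))
      map_add' := fun x y => by ext n; rfl
      map_smul' := fun c x => by ext n; rfl } 1 (by
    intro x
    rw [one_mul]
    exact cz_norm_le _ _ (norm_nonneg _) fun n => cz_le_norm x (n + 1))

/-- right shift -/
noncomputable def Rz : czero →L[ℂ] czero :=
  LinearMap.mkContinuous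
    { toFun := fun x => mkz (rsz x) ((tendsto_add_atTop_iff_nat 1).1 (cz_tendsto x))
      map_add' := fun x y => by
        ext n
        cases n with
        | zero => change (0 : ℂ) = 0 + 0; simp
        | succ n => rfl
      map_smul' := fun c x => by
        ext n
        cases n with
        | zero => change (0 : ℂ) = c * 0; simp
        | succ n => rfl } 1 (by
    intro x
    rw [one_mul]
    refine cz_norm_le _ _ (norm_nonneg _) fun n => ?_
    cases n with
    | zero => change ‖(0 : ℂ)‖ ≤ _; simp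
    | succ n => exact cz_le_norm x n)

lemma Lz_Rz (x : czero) : Lz (Rz x) = x := by
  ext n
  rfl

/-- unit vectors -/
noncomputable def ez (n : ℕ) : czero :=
  mkz (fun k => if k = n then 1 else 0) (by
    refine tendsto_const_nhds.congr' ?_
    filter_upwards [eventually_gt_atTop n] with k hk
    rw [if_neg hk.ne'])

lemma ez_apply (n k : ℕ) : ez n k = if k = n then 1 else 0 := rfl

lemma Rz_not_surj : ¬ Function.Surjective Rz := by
  intro h
  obtain ⟨x, hx⟩ := h (ez 0)
  have h1 := congrArg (fun y : czero => y 0) hx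
  have h2 : (Rz x) 0 = 0 := rfl
  simp only [h2, ez_apply] at h1
  simp at h1

lemma Rz_ez (n : ℕ) : Rz (ez n) = ez (n + 1) := by
  ext k
  cases k with
  | zero =>
    change (0 : ℂ) = _
    rw [ez_apply]
    simp
  | succ k =>
    change ez n k = ez (n + 1) (k + 1)
    rw [ez_apply, ez_apply]
    simp

lemma cyc_Rz : Cyc Rz (ez 0) := by
  have h1 : ∀ n : ℕ, (Rz ^ n) (ez 0) = ez n := by
    intro n
    induction n with
    | zero => simp
    | succ n ih => rw [pow_succ', mul_apply_eq_comp, ih, Rz_ez]
  unfold Cyc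
  simp only [h1]
  intro x
  rw [Metric.mem_closure_iff]
  intro ε hε
  obtain ⟨N, hN⟩ := (Metric.tendsto_atTop.1 (cz_tendsto x)) (ε / 2) (by positivity)
  refine ⟨∑ n ∈ Finset.range N, (x n) • ez n, ?_, ?_⟩
  · exact Submodule.sum_mem _ fun n _ => Submodule.smul_mem _ _ (Submodule.subset_span ⟨n, rfl⟩)
  · rw [dist_eq_norm]
    refine lt_of_le_of_lt (cz_norm_le _ (ε / 2) (by positivity) fun k => ?_) (half_lt_self hε)
    have h2 : (x - ∑ n ∈ Finset.range N, (x n) • ez n) k = if k < N then 0 else x k := by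
      have h3 : (∑ n ∈ Finset.range N, (x n) • ez n) k = ∑ n ∈ Finset.range N, (x n) * ez n k := by
        induction (Finset.range N) using Finset.induction_on with
        | empty => simp
        | insert a s ha ih =>
          rw [Finset.sum_insert ha, Finset.sum_insert ha, ← ih]
          rfl
      rw [ZeroAtInftyContinuousMap.sub_apply, h3]
      simp only [ez_apply, mul_ite, mul_one, mul_zero, Finset.sum_ite_eq, Finset.mem_range]
      split_ifs <;> simp
    rw [h2]
    split_ifs with hk
    · rw [norm_zero]; positivity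
    · have := hN k (not_lt.1 hk)
      rw [dist_zero_right] at this
      exact this.le

theorem exists_czero : ∃ T : czero →L[ℂ] czero, (∃ x, CC T x) ∧ ¬ Dense {x | CC T x} :=
  exists_cc Rz ⟨_, cyc_Rz⟩ (not_dense_cyc _ Lz Lz_Rz Rz_not_surj)

end Pool.Agent.Y509.CCyc
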