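import Mathlib
import Pool.Agent.Y509.CCyc.LeftInv

set_option autoImplicit false

/-!
# The shift on `ℓ^p`
-/

open Filter Topology ContinuousLinearMap
open scoped ENNReal

namespace Pool.Agent.Y509.CCyc

variable (p : ℝ≥0∞) [Fact (1 ≤ p)]

/-- complex `ℓ^p` -/
abbrev ell : Type := lp (fun _ : ℕ => ℂ) p

/-- right shift of a sequence -/
def rs (x : ℕ → ℂ) : ℕ → ℂ
  | 0 => 0
  | n + 1 => x n

lemma norm_eq_tsum (hp : p ≠ ∞) (x : ell p) : ‖x‖ ^ p.toReal = ∑' n, ‖x n‖ ^ p.toReal :=
  lp.norm_rpow_eq_tsum (ENNReal.toReal_pos (zero_lt_one.trans_le (Fact.out : 1 ≤ p)).ne' hp) x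

lemma toReal_pos' (hp : p ≠ ∞) : 0 < p.toReal :=
  ENNReal.toReal_pos (zero_lt_one.trans_le (Fact.out : 1 ≤ p)).ne' hp

lemma memL (hp : p ≠ ∞) (x : ell p) : Memℓp (fun n => x (n + 1)) p := by
  have h0 := toReal_pos' p hp
  refine memℓp_gen ?_
  exact (summable_nat_add_iff 1).2 ((memℓp_gen_iff h0).1 (lp.memℓp x))

lemma memR (hp : p ≠ ∞) (x : ell p) : Memℓp (rs x) p := by
  have h0 := toReal_pos' p hp
  refine memℓp_gen ?_
  refine (summable_nat_add_iff 1).1 ?_
  exact (memℓp_gen_iff h0).1 (lp.memℓp x)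

/-- left shift -/
noncomputable def Lop (hp : p ≠ ∞) : ell p →L[ℂ] ell p :=
  LinearMap.mkContinuous
    { toFun := fun x => ⟨fun n => x (n + 1), memL p hp x⟩
      map_add' := fun x y => by ext n; rfl
      map_smul' := fun c x => by ext n; rfl } 1 (by
    intro x
    have h0 := toReal_pos' p hp
    rw [one_mul]
    refine lp.norm_le_of_tsum_le h0 (norm_nonneg _) ?_
    rw [norm_eq_tsum p hp x]
    have hs := (memℓp_gen_iff h0).1 (lp.memℓp x)
    rw [hs.tsum_eq_zero_add]
    have : 0 ≤ ‖x 0‖ ^ p.toReal := by positivity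
    change ∑' n, ‖x (n + 1)‖ ^ p.toReal ≤ _
    linarith)

/-- right shift -/
noncomputable def Rop (hp : p ≠ ∞) : ell p →L[ℂ] ell p :=
  LinearMap.mkContinuous
    { toFun := fun x => ⟨rs x, memR p hp x⟩
      map_add' := fun x y => by
        ext n
        cases n with
        | zero => change (0 : ℂ) = 0 + 0; simp
        | succ n => rfl
      map_smul' := fun c x => by
        ext n
        cases n with
        | zero => change (0 : ℂ) = c * 0; simp
        | succ n => rfl } 1 (by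
    intro x
    have h0 := toReal_pos' p hp
    rw [one_mul]
    refine lp.norm_le_of_tsum_le h0 (norm_nonneg _) ?_
    rw [norm_eq_tsum p hp x]
    have hs := (memℓp_gen_iff h0).1 (memR p hp x)
    change ∑' n, ‖rs x n‖ ^ p.toReal ≤ _
    rw [hs.tsum_eq_zero_add]
    have h1 : ‖rs x 0‖ ^ p.toReal = 0 := by
      change ‖(0 : ℂ)‖ ^ p.toReal = 0
      rw [norm_zero, Real.zero_rpow h0.ne']
    rw [h1, zero_add]
    exact le_rfl)

lemma L_R (hp : p ≠ ∞) (x : ell p) : Lop p hp (Rop p hp x) = x := by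
  ext n
  rfl

lemma R_not_surj (hp : p ≠ ∞) : ¬ Function.Surjective (Rop p hp) := by
  intro h
  obtain ⟨x, hx⟩ := h (lp.single p 0 (1 : ℂ))
  have h1 := congrArg (fun y : ell p => y 0) hx
  have h2 : (Rop p hp x) 0 = 0 := rfl
  simp only [h2] at h1
  simp at h1

lemma R_single (hp : p ≠ ∞) (n : ℕ) (c : ℂ) :
    Rop p hp (lp.single p n c) = lp.single p (n + 1) c := by
  ext k
  cases k with
  | zero =>
    change (0 : ℂ) = _
    rw [lp.single_apply]
    simp
  | succ k =>
    change (lp.single p n c : ell p) k = (lp.single p (n + 1) c : ell p) (k + 1)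
    by_cases hk : k = n
    · subst hk
      simp
    · have e1 : (lp.single (E := fun _ : ℕ => ℂ) p n c) k = 0 := by
        rw [lp.single_apply]
        simp [hk]
      have e2 : (lp.single (E := fun _ : ℕ => ℂ) p (n + 1) c) (k + 1) = 0 := by
        rw [lp.single_apply]
        simp [hk]
      rw [e1, e2]

lemma cyc_R (hp : p ≠ ∞) : Cyc (Rop p hp) (lp.single p 0 (1 : ℂ)) := by
  have h1 : ∀ n : ℕ, ((Rop p hp) ^ n) (lp.single p 0 (1 : ℂ)) = lp.single p n (1 : ℂ) := by
    intro n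
    induction n with
    | zero => simp
    | succ n ih => rw [pow_succ', mul_apply_eq_comp, ih, R_single]
  unfold Cyc
  simp only [h1]
  intro x
  refine mem_closure_of_tendsto (lp.hasSum_single hp x) (Eventually.of_forall fun t => ?_)
  refine Submodule.sum_mem _ fun n _ => ?_
  have : (lp.single p n (x n) : ell p) = (x n) • lp.single p n (1 : ℂ) := by
    rw [← lp.single_smul, smul_eq_mul, mul_one]
  rw [this]
  exact Submodule.smul_mem _ _ (Submodule.subset_span ⟨n, rfl⟩)

theorem exists_lp (hp : p ≠ ∞) :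
    ∃ T : ell p →L[ℂ] ell p, (∃ x, CC T x) ∧ ¬ Dense {x | CC T x} :=
  exists_cc (Rop p hp) ⟨_, cyc_R p hp⟩ (not_dense_cyc _ (Lop p hp) (L_R p hp) (R_not_surj p hp))

end Pool.Agent.Y509.CCyc
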