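import Mathlib
import Pool.Agent.Y509.CCyc.LeftInv

set_option autoImplicit false

/-!
# Products with spaces that have a cyclic operator
-/

open Filter Topology ContinuousLinearMap Polynomial

namespace Pool.Agent.Y509.CCyc

variable {X Y : Type*} [NormedAddCommGroup X] [NormedSpace ℂ X] [NormedAddCommGroup Y]
  [NormedSpace ℂ Y]

/-- the bounds -/
noncomputable def zz : ℕ → ℝ := fun k => (1 / 4) * (7 / 8) ^ k

lemma zz_step (k : ℕ) (y : ℝ) (hy0 : 0 ≤ y) (hy : y ≤ zz k) : y ^ 2 * (3 + 2 * y) ≤ zz (k + 1) := by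
  have h1 : zz (k + 1) = 7 / 8 * zz k := by unfold zz; rw [pow_succ]; ring
  have h0 : zz k ≤ 1 / 4 := by
    unfold zz
    have : (7 / 8 : ℝ) ^ k ≤ 1 := pow_le_one₀ (by norm_num) (by norm_num)
    linarith
  have h2 : y ≤ 1 / 4 := hy.trans h0
  have h3 : y * (3 + 2 * y) ≤ 7 / 8 := by nlinarith
  rw [h1]
  calc y ^ 2 * (3 + 2 * y) = (y * (3 + 2 * y)) * y := by ring
    _ ≤ (7 / 8) * y := mul_le_mul_of_nonneg_right h3 hy0
    _ ≤ _ := mul_le_mul_of_nonneg_left hy (by norm_num)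

lemma zz_tendsto : Tendsto zz atTop (𝓝 0) := by
  have := (tendsto_pow_atTop_nhds_zero_of_lt_one (r := (7 / 8 : ℝ)) (by norm_num)
    (by norm_num)).const_mul (1 / 4)
  rw [mul_zero] at this
  exact this

lemma step_small {R : Type*} [NormedRing R] [NormedAlgebra ℂ R] [NormOneClass R] (k : ℕ) (E : R)
    (h : ‖E‖ ≤ zz k) : ‖3 * E ^ 2 - 2 * E ^ 3‖ ≤ zz (k + 1) := by
  refine le_trans ?_ (zz_step k _ (norm_nonneg E) h)
  have h3 : ‖(3 : R)‖ ≤ 3 := by
    have := Nat.norm_cast_le (α := R) 3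
    simpa using this
  have h2 : ‖(2 : R)‖ ≤ 2 := by
    have := Nat.norm_cast_le (α := R) 2
    simpa using this
  have e1 : ‖E ^ 2‖ ≤ ‖E‖ ^ 2 := norm_pow_le E 2
  have e2 : ‖E ^ 3‖ ≤ ‖E‖ ^ 3 := norm_pow_le E 3
  calc ‖3 * E ^ 2 - 2 * E ^ 3‖ ≤ ‖3 * E ^ 2‖ + ‖2 * E ^ 3‖ := norm_sub_le _ _
    _ ≤ 3 * ‖E‖ ^ 2 + 2 * ‖E‖ ^ 3 := add_le_add
        ((norm_mul_le _ _).trans (mul_le_mul h3 e1 (norm_nonneg _) (by norm_num)))
        ((norm_mul_le _ _).trans (mul_le_mul h2 e2 (norm_nonneg _) (by norm_num)))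
    _ = _ := by ring

/-- smoothed step polynomials -/
noncomputable def pp : ℕ → ℂ[X]
  | 0 => C (1 / 4 : ℂ) * Polynomial.X
  | k + 1 => C 3 * pp k ^ 2 + C (-2) * pp k ^ 3

lemma pp_small [Nontrivial X] (S : X →L[ℂ] X) (hS : ‖S‖ ≤ 1) (k : ℕ) :
    ‖aeval S (pp k)‖ ≤ zz k := by
  induction k with
  | zero =>
    simp only [pp, map_mul, aeval_C, aeval_X, Algebra.algebraMap_eq_smul_one, smul_mul_assoc,
      one_mul, zz, pow_zero, mul_one]
    rw [norm_smul]
    have : ‖(1 / 4 : ℂ)‖ = 1 / 4 := by norm_num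
    rw [this]
    linarith
  | succ k ih =>
    have e : aeval S (pp (k + 1)) = 3 * (aeval S (pp k)) ^ 2 - 2 * (aeval S (pp k)) ^ 3 := by
      simp only [pp, map_mul, map_add, map_pow, aeval_C]
      have h3 : (algebraMap ℂ (X →L[ℂ] X)) 3 = 3 := map_ofNat _ 3
      have h2 : (algebraMap ℂ (X →L[ℂ] X)) (-2) = -2 := by rw [map_neg, map_ofNat]
      rw [h3, h2]
      noncomm_ring
    rw [e]
    exact step_small k _ ih

lemma pp_one [Nontrivial Y] (A : Y →L[ℂ] Y) (hA : ‖A‖ ≤ 1) (k : ℕ) :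
    ‖1 - aeval ((4 : ℂ) • (1 : Y →L[ℂ] Y) + A) (pp k)‖ ≤ zz k := by
  induction k with
  | zero =>
    have e : 1 - aeval ((4 : ℂ) • (1 : Y →L[ℂ] Y) + A) (pp 0) = (-1 / 4 : ℂ) • A := by
      simp only [pp, map_mul, aeval_C, aeval_X, Algebra.algebraMap_eq_smul_one, smul_mul_assoc,
        one_mul]
      match_scalars
      · ring
      · ring
    rw [e, norm_smul]
    have : ‖(-1 / 4 : ℂ)‖ = 1 / 4 := by norm_num
    rw [this]
    simp only [zz, pow_zero, mul_one]
    linarith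
  | succ k ih =>
    have e : 1 - aeval ((4 : ℂ) • (1 : Y →L[ℂ] Y) + A) (pp (k + 1)) =
        3 * (1 - aeval ((4 : ℂ) • (1 : Y →L[ℂ] Y) + A) (pp k)) ^ 2 -
        2 * (1 - aeval ((4 : ℂ) • (1 : Y →L[ℂ] Y) + A) (pp k)) ^ 3 := by
      simp only [pp, map_mul, map_add, map_pow, aeval_C]
      have h3 : (algebraMap ℂ (Y →L[ℂ] Y)) 3 = 3 := map_ofNat _ 3
      have h2 : (algebraMap ℂ (Y →L[ℂ] Y)) (-2) = -2 := by rw [map_neg, map_ofNat]
      rw [h3, h2]
      generalize (aeval ((4 : ℂ) • (1 : Y →L[ℂ] Y) + A)) (pp k) = E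
      noncomm_ring
    rw [e]
    exact step_small k _ ih

lemma span_invariant (A : Y →L[ℂ] Y) (y : Y) (z : Y)
    (hz : z ∈ Submodule.span ℂ (Set.range fun n : ℕ => (A ^ n) y)) :
    A z ∈ Submodule.span ℂ (Set.range fun n : ℕ => (A ^ n) y) := by
  refine Submodule.span_induction ?_ ?_ ?_ ?_ hz
  · rintro _ ⟨n, rfl⟩
    refine Submodule.subset_span ⟨n + 1, ?_⟩
    simp only [pow_succ', mul_apply_eq_comp]
  · rw [map_zero]; exact Submodule.zero_mem _
  · intro a b _ _ ha hb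
    rw [map_add]; exact Submodule.add_mem _ ha hb
  · intro c a _ ha
    rw [map_smul]; exact Submodule.smul_mem _ _ ha

lemma cyc_shift (A : Y →L[ℂ] Y) (c : ℂ) (y : Y) (h : Cyc A y) :
    Cyc (c • (1 : Y →L[ℂ] Y) + A) y := by
  refine Dense.mono ?_ h
  set B := c • (1 : Y →L[ℂ] Y) + A with hB
  set W := Submodule.span ℂ (Set.range fun n : ℕ => (B ^ n) y) with hW
  change (Submodule.span ℂ (Set.range fun n : ℕ => (A ^ n) y)) ≤ W
  rw [Submodule.span_le]
  rintro _ ⟨n, rfl⟩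
  change (A ^ n) y ∈ W
  induction n with
  | zero => exact Submodule.subset_span ⟨0, by simp⟩
  | succ n ih =>
    rw [pow_succ', mul_apply_eq_comp]
    have h1 : A ((A ^ n) y) = B ((A ^ n) y) - c • ((A ^ n) y) := by
      rw [hB, add_apply, smul_apply, one_apply_eq_self]
      abel
    rw [h1]
    exact W.sub_mem (span_invariant B y _ ih) (W.smul_mem _ ih)

lemma prodMap_pow (S : X →L[ℂ] X) (B : Y →L[ℂ] Y) (n : ℕ) (x : X) (y : Y) :
    ((S.prodMap B) ^ n) (x, y) = ((S ^ n) x, (B ^ n) y) := by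
  induction n with
  | zero => simp
  | succ n ih =>
    rw [pow_succ', mul_apply_eq_comp, ih, pow_succ', mul_apply_eq_comp, pow_succ',
      mul_apply_eq_comp]
    rfl

lemma prodMap_aeval (S : X →L[ℂ] X) (B : Y →L[ℂ] Y) (q : ℂ[X]) (x : X) (y : Y) :
    aeval (S.prodMap B) q (x, y) = (aeval S q x, aeval B q y) := by
  rw [aeval_eq_sum_range, aeval_eq_sum_range, aeval_eq_sum_range, sum_apply, sum_apply, sum_apply]
  simp only [smul_apply, prodMap_pow]
  rw [Prod.ext_iff]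
  constructor
  · rw [Prod.fst_sum]
    rfl
  · rw [Prod.snd_sum]
    rfl

lemma aeval_mem (R : X →L[ℂ] X) (q : ℂ[X]) (z : X) :
    aeval R q z ∈ Submodule.span ℂ (Set.range fun n : ℕ => (R ^ n) z) := by
  rw [aeval_eq_sum_range, sum_apply]
  refine Submodule.sum_mem _ fun i _ => ?_
  rw [smul_apply]
  exact Submodule.smul_mem _ _ (Submodule.subset_span ⟨i, rfl⟩)

theorem cyc_prod_aux (S : X →L[ℂ] X) (hS : ‖S‖ ≤ 1) (x : X) (hx : Cyc S x) (A : Y →L[ℂ] Y)
    (hA : ‖A‖ ≤ 1) (y : Y) (hy : Cyc A y) :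
    Cyc (S.prodMap ((4 : ℂ) • (1 : Y →L[ℂ] Y) + A)) (x, y) := by
  set B := (4 : ℂ) • (1 : Y →L[ℂ] Y) + A with hB
  set R := S.prodMap B with hR
  set W := (Submodule.span ℂ (Set.range fun n : ℕ => (R ^ n) (x, y))).topologicalClosure with hW
  have hWc : IsClosed (W : Set (X × Y)) := Submodule.isClosed_topologicalClosure _
  have hsub : Submodule.span ℂ (Set.range fun n : ℕ => (R ^ n) (x, y)) ≤ W :=
    Submodule.le_topologicalClosure _
  have hp : ∀ q : ℂ[X], (aeval S q x, aeval B q y) ∈ W := by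
    intro q
    rw [← prodMap_aeval]
    exact hsub (aeval_mem R q (x, y))
  have hB1 : ∀ n, ((0 : X), (B ^ n) y) ∈ W := by
    intro n
    have h1 : ∀ k, (aeval S (Polynomial.X ^ n * pp k) x, aeval B (Polynomial.X ^ n * pp k) y) ∈ W := fun k => hp _
    have h2 : Tendsto (fun k => aeval S (Polynomial.X ^ n * pp k) x) atTop (𝓝 0) := by
      rcases subsingleton_or_nontrivial X with hX | hX
      · have : (fun k => aeval S (Polynomial.X ^ n * pp k) x) = fun _ => 0 := by
          funext k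
          exact Subsingleton.elim _ _
        rw [this]
        exact tendsto_const_nhds
      · rw [tendsto_zero_iff_norm_tendsto_zero]
        have h3 : Tendsto (fun k => ‖S ^ n‖ * zz k * ‖x‖) atTop (𝓝 0) := by
          have := (zz_tendsto.const_mul ‖S ^ n‖).mul_const ‖x‖
          simpa using this
        refine squeeze_zero (fun _ => norm_nonneg _) (fun k => ?_) h3
        refine ((aeval S (Polynomial.X ^ n * pp k)).le_opNorm x).trans ?_
        refine mul_le_mul_of_nonneg_right ?_ (norm_nonneg _)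
        rw [map_mul, map_pow, aeval_X]
        exact (norm_mul_le _ _).trans (mul_le_mul_of_nonneg_left (pp_small S hS k) (norm_nonneg _))
    have h4 : Tendsto (fun k => aeval B (Polynomial.X ^ n * pp k) y) atTop (𝓝 ((B ^ n) y)) := by
      rcases subsingleton_or_nontrivial Y with hY | hY
      · have : (fun k => aeval B (Polynomial.X ^ n * pp k) y) = fun _ => (B ^ n) y := by
          funext k
          exact Subsingleton.elim _ _
        rw [this]
        exact tendsto_const_nhds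
      · rw [tendsto_iff_norm_sub_tendsto_zero]
        have h3 : Tendsto (fun k => ‖B ^ n‖ * zz k * ‖y‖) atTop (𝓝 0) := by
          have := (zz_tendsto.const_mul ‖B ^ n‖).mul_const ‖y‖
          simpa using this
        refine squeeze_zero (fun _ => norm_nonneg _) (fun k => ?_) h3
        have e : aeval B (Polynomial.X ^ n * pp k) y - (B ^ n) y = -((B ^ n) ((1 - aeval B (pp k)) y)) := by
          rw [map_mul, map_pow, aeval_X, mul_apply_eq_comp, sub_apply, one_apply_eq_self, map_sub]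
          abel
        rw [e, norm_neg]
        calc ‖(B ^ n) ((1 - aeval B (pp k)) y)‖ ≤ ‖B ^ n‖ * ‖(1 - aeval B (pp k)) y‖ :=
              (B ^ n).le_opNorm _
          _ ≤ ‖B ^ n‖ * (zz k * ‖y‖) := mul_le_mul_of_nonneg_left
              (((1 - aeval B (pp k)).le_opNorm y).trans
                (mul_le_mul_of_nonneg_right (pp_one A hA k) (norm_nonneg _))) (norm_nonneg _)
          _ = _ := by ring
    exact hWc.mem_of_tendsto (h2.prodMk_nhds h4) (Eventually.of_forall h1)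
  have hS1 : ∀ n, ((S ^ n) x, (0 : Y)) ∈ W := by
    intro n
    have h1 := hsub (Submodule.subset_span ⟨n, rfl⟩ :
      (R ^ n) (x, y) ∈ Submodule.span ℂ (Set.range fun n : ℕ => (R ^ n) (x, y)))
    rw [hR, prodMap_pow] at h1
    have h2 := W.sub_mem h1 (hB1 n)
    simpa using h2
  have hY : ∀ v : Y, ((0 : X), v) ∈ W := by
    intro v
    have h1 : IsClosed {v : Y | ((0 : X), v) ∈ W} := hWc.preimage (by fun_prop)
    have h2 : (Submodule.span ℂ (Set.range fun n : ℕ => (B ^ n) y) : Set Y) ⊆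
        {v : Y | ((0 : X), v) ∈ W} := by
      have h3 : Submodule.span ℂ (Set.range fun n : ℕ => (B ^ n) y) ≤
          W.comap (LinearMap.inr ℂ X Y) := by
        rw [Submodule.span_le]
        rintro _ ⟨n, rfl⟩
        exact hB1 n
      exact h3
    have h4 := ((cyc_shift A 4 y hy).mono h2).closure_eq
    rw [h1.closure_eq] at h4
    have : v ∈ {v : Y | ((0 : X), v) ∈ W} := by rw [h4]; trivial
    exact this
  have hX : ∀ v : X, (v, (0 : Y)) ∈ W := by
    intro v
    have h1 : IsClosed {v : X | (v, (0 : Y)) ∈ W} := hWc.preimage (by fun_prop)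
    have h2 : (Submodule.span ℂ (Set.range fun n : ℕ => (S ^ n) x) : Set X) ⊆
        {v : X | (v, (0 : Y)) ∈ W} := by
      have h3 : Submodule.span ℂ (Set.range fun n : ℕ => (S ^ n) x) ≤
          W.comap (LinearMap.inl ℂ X Y) := by
        rw [Submodule.span_le]
        rintro _ ⟨n, rfl⟩
        exact hS1 n
      exact h3
    have h4 := (hx.mono h2).closure_eq
    rw [h1.closure_eq] at h4
    have : v ∈ {v : X | (v, (0 : Y)) ∈ W} := by rw [h4]; trivial
    exact this
  have htop : ∀ z : X × Y, z ∈ W := by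
    rintro ⟨a, b⟩
    have := W.add_mem (hX a) (hY b)
    simpa using this
  intro z
  have := htop z
  rw [hW, ← SetLike.mem_coe, Submodule.topologicalClosure_coe] at this
  exact this

/-- `X` has a cyclic operator whose cyclic vectors are not dense -/
def Good (X : Type*) [NormedAddCommGroup X] [NormedSpace ℂ X] : Prop :=
  ∃ S : X →L[ℂ] X, (∃ x, Cyc S x) ∧ ¬ Dense {x | Cyc S x}

lemma scale (S : X →L[ℂ] X) : ∃ c : ℂ, c ≠ 0 ∧ ‖c • S‖ ≤ 1 := by
  have hpos : (0 : ℝ) < (‖S‖ + 1)⁻¹ := by positivity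
  refine ⟨(((‖S‖ + 1)⁻¹ : ℝ) : ℂ), ?_, ?_⟩
  · simp only [ne_eq, Complex.ofReal_eq_zero]
    exact hpos.ne'
  · rw [norm_smul]
    simp only [Complex.norm_real, Real.norm_eq_abs, abs_of_pos hpos]
    rw [inv_mul_le_iff₀ (by positivity)]
    linarith

theorem good_prod (hX : Good X) (hY : ∃ (A : Y →L[ℂ] Y) (y : Y), Cyc A y) : Good (X × Y) := by
  obtain ⟨S, ⟨x, hx⟩, hd⟩ := hX
  obtain ⟨A, y, hy⟩ := hY
  obtain ⟨c, hc, hcS⟩ := scale S
  obtain ⟨c', hc', hcA⟩ := scale A
  refine ⟨(c • S).prodMap ((4 : ℂ) • (1 : Y →L[ℂ] Y) + c' • A),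
    ⟨(x, y), cyc_prod_aux _ hcS x ((cyc_smul S c hc x).2 hx) _ hcA y ((cyc_smul A c' hc' y).2 hy)⟩,
    ?_⟩
  intro hdd
  apply hd
  have h1 : Dense (Prod.fst '' {z : X × Y |
      Cyc ((c • S).prodMap ((4 : ℂ) • (1 : Y →L[ℂ] Y) + c' • A)) z}) :=
    (Prod.fst_surjective.denseRange).dense_image continuous_fst hdd
  refine h1.mono ?_
  rintro _ ⟨⟨a, b⟩, hab, rfl⟩
  refine (cyc_smul S c hc a).1 ?_
  have h2 : Dense (Prod.fst '' (Submodule.span ℂ (Set.range fun n : ℕ =>
      (((c • S).prodMap ((4 : ℂ) • (1 : Y →L[ℂ] Y) + c' • A)) ^ n) (a, b)) : Set (X × Y))) :=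
    (Prod.fst_surjective.denseRange).dense_image continuous_fst hab
  refine h2.mono ?_
  rintro _ ⟨z, hz, rfl⟩
  have h3 : Submodule.span ℂ (Set.range fun n : ℕ =>
      (((c • S).prodMap ((4 : ℂ) • (1 : Y →L[ℂ] Y) + c' • A)) ^ n) (a, b)) ≤
      (Submodule.span ℂ (Set.range fun n : ℕ => ((c • S) ^ n) a)).comap (LinearMap.fst ℂ X Y) := by
    rw [Submodule.span_le]
    rintro _ ⟨n, rfl⟩
    simp only [prodMap_pow]
    exact Submodule.subset_span ⟨n, rfl⟩
  exact h3 hz

theorem good_congr (e : X ≃L[ℂ] Y) (h : Good X) : Good Y := by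
  obtain ⟨S, ⟨x, hx⟩, hd⟩ := h
  let T : Y →L[ℂ] Y := (e : X →L[ℂ] Y) ∘L S ∘L (e.symm : Y →L[ℂ] X)
  have hpow : ∀ (n : ℕ) (x : X), (T ^ n) (e x) = e ((S ^ n) x) := by
    intro n x
    induction n with
    | zero => simp
    | succ n ih =>
      rw [pow_succ', mul_apply_eq_comp, ih, pow_succ', mul_apply_eq_comp]
      change e (S (e.symm (e ((S ^ n) x)))) = _
      rw [e.symm_apply_apply]
  have hcyc : ∀ x, Cyc T (e x) ↔ Cyc S x := by
    intro x
    have h1 : (Submodule.span ℂ (Set.range fun n : ℕ => (T ^ n) (e x)) : Set Y) =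
        e '' (Submodule.span ℂ (Set.range fun n : ℕ => (S ^ n) x) : Set X) := by
      have h2 : Submodule.span ℂ (Set.range fun n : ℕ => (T ^ n) (e x)) =
          (Submodule.span ℂ (Set.range fun n : ℕ => (S ^ n) x)).map (e : X →ₗ[ℂ] Y) := by
        rw [Submodule.map_span]
        congr 1
        ext z
        constructor
        · rintro ⟨n, rfl⟩
          exact ⟨(S ^ n) x, ⟨n, rfl⟩, (hpow n x).symm⟩
        · rintro ⟨_, ⟨n, rfl⟩, rfl⟩
          exact ⟨n, hpow n x⟩
      rw [h2]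
      rfl
    unfold Cyc
    rw [h1]
    constructor
    · intro h
      have := (e.symm.surjective.denseRange).dense_image e.symm.continuous h
      rwa [← Set.image_comp, ContinuousLinearEquiv.symm_comp_self, Set.image_id] at this
    · intro h
      exact (e.surjective.denseRange).dense_image e.continuous h
  refine ⟨T, ⟨e x, (hcyc x).2 hx⟩, fun h => hd ?_⟩
  have h1 := (e.symm.surjective.denseRange).dense_image e.symm.continuous h
  refine h1.mono ?_
  rintro _ ⟨z, hz, rfl⟩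
  have h2 : z = e (e.symm z) := (e.apply_symm_apply z).symm
  have hz' : Cyc T z := hz
  rw [h2] at hz'
  exact (hcyc _).1 hz'

end Pool.Agent.Y509.CCyc
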