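import Mathlib
import Pool.Agent.Y509.CCyc.LeftInv

set_option autoImplicit false

/-!
# Every separable complex Banach space has a cyclic operator
-/

open Filter Topology ContinuousLinearMap

namespace Pool.Agent.Y509.CCyc

lemma exists_sep {Y : Type*} [NormedAddCommGroup Y] [NormedSpace ℂ Y] (V : Submodule ℂ Y)
    (hV : IsClosed (V : Set Y)) (x : Y) (hx : x ∉ V) :
    ∃ f : Y →L[ℂ] ℂ, (∀ v ∈ V, f v = 0) ∧ f x = 1 := by
  obtain ⟨φ, u, h1, h2⟩ := RCLike.geometric_hahn_banach_closed_point (𝕜 := ℂ)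
    ((V.restrictScalars ℝ).convex) hV hx
  have hu : 0 < u := by
    have := h1 0 V.zero_mem
    simpa using this
  have hv : ∀ v ∈ V, φ v = 0 := by
    intro v hv
    by_contra hne
    have h3 := h1 (((u : ℂ) / φ v) • v) (V.smul_mem _ hv)
    rw [map_smul, smul_eq_mul, div_mul_cancel₀ _ hne] at h3
    simp at h3
  have hx0 : φ x ≠ 0 := by
    intro h0
    rw [h0] at h2
    simp at h2
    linarith
  refine ⟨(φ x)⁻¹ • φ, fun v hvV => ?_, ?_⟩
  · rw [smul_apply, hv v hvV, smul_zero]
  · rw [smul_apply, smul_eq_mul, inv_mul_cancel₀ hx0]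

section
variable {Y : Type*} [NormedAddCommGroup Y] [NormedSpace ℂ Y]

open Classical in
/-- the first member of the sequence outside of a subspace -/
noncomputable def pick (u : ℕ → Y) (W : Submodule ℂ Y) : Y :=
  if h : ∃ k, u k ∉ W then u (Nat.find h) else 0

/-- increasing sequence of finite dimensional subspaces -/
noncomputable def VV (u : ℕ → Y) : ℕ → Submodule ℂ Y
  | 0 => ⊥
  | n + 1 => VV u n ⊔ Submodule.span ℂ {pick u (VV u n)}

lemma VV_zero (u : ℕ → Y) : VV u 0 = ⊥ := rfl

lemma VV_succ (u : ℕ → Y) (n : ℕ) :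
    VV u (n + 1) = VV u n ⊔ Submodule.span ℂ {pick u (VV u n)} := rfl

lemma VV_fin (u : ℕ → Y) (n : ℕ) : FiniteDimensional ℂ (VV u n) := by
  induction n with
  | zero => rw [VV_zero]; infer_instance
  | succ n ih => rw [VV_succ]; infer_instance

lemma VV_mono (u : ℕ → Y) : Monotone (VV u) := monotone_nat_of_le_succ fun n => by
  rw [VV_succ]
  exact le_sup_left

lemma pick_mem (u : ℕ → Y) (n : ℕ) : pick u (VV u n) ∈ VV u (n + 1) := by
  rw [VV_succ]
  exact Submodule.mem_sup_right (Submodule.mem_span_singleton_self _)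

lemma mem_VV (u : ℕ → Y) (n : ℕ) : ∀ i < n, u i ∈ VV u n := by
  classical
  induction n with
  | zero => intro i hi; omega
  | succ n ih =>
    intro i hi
    rcases Nat.lt_succ_iff_lt_or_eq.1 hi with h | h
    · exact VV_mono u (Nat.le_succ n) (ih i h)
    · subst h
      by_cases hu : u i ∈ VV u i
      · exact VV_mono u (Nat.le_succ i) hu
      · have hex : ∃ k, u k ∉ VV u i := ⟨i, hu⟩
        have h1 : Nat.find hex = i := by
          refine le_antisymm (Nat.find_min' hex hu) ?_
          by_contra hlt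
          exact Nat.find_spec hex (ih _ (not_le.1 hlt))
        have h2 : pick u (VV u i) = u i := by
          unfold pick
          rw [dif_pos hex]
          convert congrArg u h1
        rw [← h2]
        exact pick_mem u i

lemma pick_zero (u : ℕ → Y) (n : ℕ) (h : pick u (VV u n) ∈ VV u n) :
    pick u (VV u (n + 1)) = 0 := by
  classical
  have h1 : ¬ ∃ k, u k ∉ VV u n := by
    intro hex
    unfold pick at h
    rw [dif_pos hex] at h
    exact Nat.find_spec hex h
  have h2 : ¬ ∃ k, u k ∉ VV u (n + 1) := by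
    rintro ⟨k, hk⟩
    exact h1 ⟨k, fun h => hk (VV_mono u (Nat.le_succ n) h)⟩
  unfold pick
  rw [dif_neg h2]

end

/-- Every separable complex Banach space has a cyclic operator. -/
theorem exists_cyclic (Y : Type*) [NormedAddCommGroup Y] [NormedSpace ℂ Y] [CompleteSpace Y]
    [TopologicalSpace.SeparableSpace Y] : ∃ (A : Y →L[ℂ] Y) (y : Y), Cyc A y := by
  classical
  obtain ⟨u, hud⟩ := TopologicalSpace.exists_dense_seq Y
  obtain ⟨x, hx⟩ : ∃ x : ℕ → Y, ∀ n, x n = pick u (VV u n) := ⟨_, fun _ => rfl⟩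
  have hx1 : ∀ m n, m < n → x m ∈ VV u n := fun m n h => by
    rw [hx]
    exact VV_mono u (Nat.succ_le_of_lt h) (pick_mem u m)
  have hf : ∀ n, ∃ f : Y →L[ℂ] ℂ, (∀ v ∈ VV u n, f v = 0) ∧ (x n ∉ VV u n → f (x n) = 1) := by
    intro n
    haveI := VV_fin u n
    by_cases h : x n ∈ VV u n
    · exact ⟨0, fun _ _ => rfl, fun h' => absurd h h'⟩
    · obtain ⟨f, hf1, hf2⟩ := exists_sep (VV u n) (VV u n).closed_of_finiteDimensional (x n) h
      exact ⟨f, hf1, fun _ => hf2⟩
  choose f hf1 hf2 using hf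
  obtain ⟨w, hw⟩ : ∃ w : ℕ → ℝ, ∀ n, w n = (1 / 2) ^ n / (‖f n‖ * ‖x (n + 1)‖ + 1) :=
    ⟨_, fun _ => rfl⟩
  have hw0 : ∀ n, 0 < w n := fun n => by rw [hw]; positivity
  obtain ⟨B, hBdef⟩ : ∃ B : ℕ → (Y →L[ℂ] Y), ∀ n, B n = ((w n : ℝ) : ℂ) • (f n).smulRight (x (n + 1)) :=
    ⟨_, fun _ => rfl⟩
  have hB : ∀ n, ‖B n‖ ≤ (1 / 2) ^ n := by
    intro n
    rw [hBdef]
    rw [norm_smul, norm_smulRight_apply, Complex.norm_real, Real.norm_eq_abs, abs_of_pos (hw0 n)]
    rw [hw]
    rw [div_mul_eq_mul_div, div_le_iff₀ (by positivity)]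
    refine mul_le_mul_of_nonneg_left ?_ (by positivity)
    linarith
  have hsum : Summable B := Summable.of_norm_bounded
    (summable_geometric_of_lt_one (by norm_num) (by norm_num)) hB
  obtain ⟨A, hAs⟩ : ∃ A : Y →L[ℂ] Y, HasSum B A := ⟨_, hsum.hasSum⟩
  have hA : ∀ m, A (x m) = ∑ n ∈ Finset.range (m + 1), ((w n : ℂ) * f n (x m)) • x (n + 1) := by
    intro m
    have h1 : HasSum (fun n => B n (x m)) (A (x m)) :=
      (ContinuousLinearMap.apply ℂ Y (x m)).hasSum hAs
    have h2 : HasSum (fun n => B n (x m)) (∑ n ∈ Finset.range (m + 1), B n (x m)) := by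
      refine hasSum_sum_of_ne_finset_zero fun n hn => ?_
      have hn' : m < n := by
        have := Finset.mem_range.not.1 hn
        omega
      rw [hBdef, smul_apply, smulRight_apply]
      rw [hf1 n (x m) (hx1 m n hn'), zero_smul, smul_zero]
    rw [h1.unique h2]
    refine Finset.sum_congr rfl fun n _ => ?_
    rw [hBdef, smul_apply, smulRight_apply, smul_smul]
  refine ⟨A, x 0, ?_⟩
  set W := Submodule.span ℂ (Set.range fun n : ℕ => (A ^ n) (x 0)) with hW
  have hinv : ∀ y ∈ W, A y ∈ W := by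
    intro y hy
    refine Submodule.span_induction ?_ ?_ ?_ ?_ hy
    · rintro _ ⟨n, rfl⟩
      refine Submodule.subset_span ⟨n + 1, ?_⟩
      simp only [pow_succ', mul_apply_eq_comp]
    · rw [map_zero]; exact Submodule.zero_mem _
    · intro a b _ _ ha hb
      rw [map_add]; exact Submodule.add_mem _ ha hb
    · intro c a _ ha
      rw [map_smul]; exact Submodule.smul_mem _ _ ha
  have hmem : ∀ m, ∀ i ≤ m, x i ∈ W := by
    intro m
    induction m with
    | zero =>
      intro i hi
      have : i = 0 := by omega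
      subst this
      exact Submodule.subset_span ⟨0, by simp⟩
    | succ m ih =>
      intro i hi
      rcases Nat.le_succ_iff.1 hi with h | h
      · exact ih i h
      · subst h
        by_cases hm : x m ∈ VV u m
        · have : x (m + 1) = 0 := by
            rw [hx] at hm ⊢
            exact pick_zero u m hm
          rw [this]
          exact W.zero_mem
        · have h1 := hinv _ (ih m le_rfl)
          rw [hA m, Finset.sum_range_succ, hf2 m hm, mul_one] at h1
          have h2 : ∑ n ∈ Finset.range m, ((w n : ℂ) * f n (x m)) • x (n + 1) ∈ W :=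
            Submodule.sum_mem _ fun n hn =>
              Submodule.smul_mem _ _ (ih (n + 1) (by have := Finset.mem_range.1 hn; omega))
          have h3 := (Submodule.add_mem_iff_right W h2).1 h1
          have h4 : (w m : ℂ) ≠ 0 := by exact_mod_cast (hw0 m).ne'
          exact (Submodule.smul_mem_iff W h4).1 h3
  have hVW : ∀ n, VV u n ≤ W := by
    intro n
    induction n with
    | zero => rw [VV_zero]; exact bot_le
    | succ n ih =>
      rw [VV_succ]
      refine sup_le ih ?_
      rw [Submodule.span_le]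
      rintro _ rfl
      rw [← hx]
      exact hmem n n le_rfl
  have hu : ∀ k, u k ∈ W := fun k => hVW (k + 1) (mem_VV u (k + 1) k (Nat.lt_succ_self k))
  refine Dense.mono ?_ hud
  rintro _ ⟨k, rfl⟩
  exact hu k

end Pool.Agent.Y509.CCyc
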